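import Pool.Agent.H885.DRB2
import Pool.Agent.H885.SymW
import Pool.Agent.H885.BaseN
import Pool.Agent.H885.AbsN
import Pool.Agent.H885.Cnt
import Pool.Agent.H885.FewR

/-!
# Grothendieck's period conjecture for divisor classes: fibres near degenerate fibres of all families

Let `X → V` be a smooth projective family over `ℚ` over the complement `V` of a divisor with normal crossings near the point `0`
of an affine space of **any dimension `m`**, with unipotent local monodromies; the fibre over `0` may be **degenerate**. For a direct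
factor of rank `n` of `H²` (or of any other cohomology group), for example the part of `H²` without invariants of the
monodromy, the period matrix in a rational basis of the canonical extension is `Ω x_1^(R_1) ⋯ x_m^(R_m) Z(x)`; the `R_i` are
the residues, commuting nilpotent matrices (they can be made integral), `Z` is a matrix of G-functions over `ℚ` in `m` variables,
and `Ω` is the period matrix of the limit. In the direction `a ∈ ℤ^m` it is `P(a u) = C u^R Z(a u)`, where `R = ∑_i R_i` and
`C = Ω ∏_i a_i^(R_i)` is the period matrix of the limit mixed Hodge structure at the tangential base point `a`. For the rational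
point `a / b` the period matrix of the fibre is `P = C exp (-log(b) R) Z(a / b)`: the comparison isomorphism of de Rham
cohomology and Betti cohomology is `α ↦ P α`. A **Grothendieck class** is a pair `(α, β)` with `P α = 2 π i β` where the
coordinates of `α` are algebraic numbers and those of `β` are integers; the conjecture (Q1) says that these are the classes of
line bundles. More generally we consider tensors `α, β` of degree `d ≤ D` with `P^(⊗ d) α = τ β`, `τ ≠ 0` any number
(`IsClass`), the coordinates of `α` and `β` being algebraic numbers of degree at most `e`, for the sum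
`V_0 ⊕ V_1 ⊕ … ⊕ V_N` of the `N` objects at `N` points `a_j / b_j` and of another object `V_0` with period matrix `C₀`.

**Theorem.** Fix `m, n, N, r₀, M, q, s, ℓ, e` and `D ≥ 1`. There is `E` with the following property for all complex numbers
`β_1, …, β_s`, all `H, h, w` and all `b₀ ≥ (2 H (h + w + 2))^E`. We consider (`Fibres.Valid`)

* **all** tuples `b_1, …, b_N` of denominators in the window `[b₀, b₀ + w]`, at most `M` of them different, such that the
  distances of different `b_j` are larger than `2^(m+1) H (h + 2)`,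
* **all** families, that is, all commuting nilpotent integral `R_{ji}` and all `n × n` systems
  `T (x_i ∂Z_j / ∂x_i + R_{ji} Z_j) = Z_j A_{ji}` of degree at most `q`, for which the height of the system and the growth
  constants of the coefficients and of the denominators of `Z_j` and `Z_j⁻¹` are at most `H`,
* **all** numerators `a_j ∈ ℤ^m` with `|a_j| ≤ h`, such that the line `ℚ a_j` is not contained in the polar locus `T = 0`,
* **all** numbers `γ_1, …, γ_ℓ` and **all** limits such that, up to a common factor `κ`, the periods (entries of the `C_j` and of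
  `C₀`) are algebraic of degree at most `e` over `ℚ(β_1, …, β_s, γ_1, …, γ_ℓ)`, and the period matrices are invertible,
* any space `𝔤` of tuples `(X_1, …, X_N)` of matrices, stable under the conjugation by `exp (λ R_j)` (`Fibres.twist`), such that,
  for each `c`, the tuple of the `X_j` with `b_j = c` is an infinitesimal symmetry of the restrictions of the `Z_j` with
  `b_j = c` to the lines `ℚ a_j`. If the monodromy groups of the families on the lines are connected and perfect (for pure
  variations they are semisimple: Deligne) then their Lie algebras are such spaces; for `𝔤` the product of these Lie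
  algebras for the different denominators `C 𝔤 C⁻¹` is the Lie algebra of the (joint) monodromy group.

Then:

1. For any number of tuples as above, of any families, the denominators of which are at distance larger than
   `2^(m+1) H (h + 2)` for different tuples, there are `ρ_1, ρ_2, …` with `∑ ρ_l ≤ s + 1` such that for the tuple with
   number `l` **the part of the monodromy Lie algebra `C 𝔤 C⁻¹` which preserves the lines of all classes `β` as above has
   codimension at most `ρ_l + ℓ`** (`Fibres.ClassesUpTo`). In particular the orbit of the line of each class under the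
   monodromy group has dimension at most `ρ_l + ℓ`. If the monodromy of `V_j` is big, that is, if it contains the special
   orthogonal group (as usual for the part of `H²` without invariants), and `ρ_l + ℓ + 2 < n`, then **`V_j` has no
   Grothendieck classes of degree at most `e` except `0`** (`Fibres.NoDivisorClasses`): for such fibres each Grothendieck class
   of degree at most `e` is in the part of `H²` fixed by the monodromy, and Q1 holds for these classes if it holds for the fixed
   part, for instance if the fixed part is spanned by classes of divisors of the total space.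
2. **Few exceptional denominators:** for each `r ≥ ℓ` there is a set `F` of at most `M ⌊(s + 1) / (r + 1 - ℓ)⌋` denominators such
   that the two statements are true with `r` instead of `ρ_l + ℓ` for **all** tuples of fibres as above whose denominators are at
   distance larger than `2^(m+1) H (h + 2)` from the elements of `F`. The set `F` depends on `β_1, …, β_s` and on the window only,
   not on the families, the limits, the points or `V_0`.
3. **Without windows:** there is `k`, which depends only on `m, n, N, r₀, q, s, ℓ, e, D`, such that for all `β_1, …, β_s`, `H`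
   and `h` the number of the integers `b ≤ B` which are the denominators of some tuple of points `a_j / b` as above, of any
   families, for which this is not true with `r = ℓ`, is `O(B^(1 - 1/k))`.

If `s + ℓ + 3 < n` then part 2 with `r = s + ℓ + 1` has **no exceptions**: in a family with big monodromy on a part of `H²` of rank `n`
near a fibre over `0` whose limit periods generate a field of transcendence degree at most `n - 4`, all fibres at the points
`a / b`, `|a| ≤ h`, `b ≥ (2 H (h + 2))^E`, have no Grothendieck classes of degree at most `e` in this part. For example this is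
so if the limit is a sum of Tate structures up to isogeny, `s = 1`, and `n ≥ 5`. For `ℓ = 0`, `r = 0` there are **arbitrary**
limits and arbitrary (semisimple) monodromy groups: at most `M (s + 1)` exceptional denominators in each window for the statement
that the monodromy preserves the lines of all classes in all tensor spaces of degree at most `D`.

Grothendieck's conjecture for divisor classes is known for abelian varieties (problem file) and some related varieties with
`h^(2,0) = 1`; for the fibres of general families the classes of the library and of `CodimensionsNearDegenerate` (MP_eeb1a4_ag)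
are Hodge classes. That the period matrices have this form, the facts on the monodromy groups and on line bundles are from the
literature and not part of the Lean theorem.

Proof (`Pool/Agent/H885`). (i) A linear independence theorem for values of G-functions at `1 / t` in which all constants are
explicit powers of the height of the system, with Galochkin's condition for `x^R Z` (`GN`), and twisted shifts (`EPm`, `TwS`,
`CurTw`): for a common `t₀ > b_j` the matrices `z_j = exp (-log(b_j / t₀) R_j) Z_j(1 / b_j)` are values of G-functions at `1 / t₀`, so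
that only one further number `log t₀` is needed for all points of the window: `P_j = C_j exp (-log(t₀) R_j) z_j`. (ii) The
ultraproduct of a sequence of counterexamples has, for each of the separated tuples and each symmetry `X ∈ 𝔤`, a derivation of
`*ℂ` over `*ℚ` which moves the `z_j` at this tuple by `X` and kills those at all other tuples (`derW`). (iii) By linear algebra the
derivations which kill the `β_i`, `log t₀` and the `γ_i` act on the `z_j` at the tuple `l` by a space of matrices in `𝔤` of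
codimension at most `ρ_l + ℓ`, `∑ ρ_l ≤ s + 1` (`coreZ`, `uniformZW`). (iv) A derivation `∂` kills the coordinates of `α` and
`β`, so `∂` of the equation `P^(⊗ d) α = τ β` shows that the logarithmic derivative `A = ∂P P⁻¹` satisfies
`A β = (∂τ / τ) β`; this is true at the same time for all classes of degree at most `D` (`DRB`). (v) The orbit of a
nonzero vector under `so(B)` is a hyperplane, so the orbit of its line has dimension at least `n - 2` (`DRB2`).

-/

set_option autoImplicit false

open PowerSeries Filter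
open scoped Matrix

namespace Pool.Agent.Results.MP_c3fc99_ag.DeRhamBettiClasses

section several
variable {n m N : ℕ}

/-- an integer polynomial in `m` variables as a power series with rational coefficients -/
noncomputable def toQ (P : MvPolynomial (Fin m) ℤ) : MvPowerSeries (Fin m) ℚ :=
  ((P.map (Int.castRingHom ℚ) : MvPolynomial (Fin m) ℚ) : MvPowerSeries (Fin m) ℚ)

/-- the partial derivative `∂f / ∂x_i` -/
noncomputable def partialD (i : Fin m) (f : MvPowerSeries (Fin m) ℚ) : MvPowerSeries (Fin m) ℚ :=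
  fun ν => ((ν i : ℚ) + 1) * MvPowerSeries.coeff (ν + Finsupp.single i 1) f

/-- `Z` is an invertible `n × n` matrix of G-functions in `m` variables with rational coefficients, `W = Z⁻¹`, `R_1, …, R_m`
are commuting nilpotent integral matrices, and `x_1^(R_1) ⋯ x_m^(R_m) Z` solves a system with logarithmic poles, that is,
`T (x_i ∂Z / ∂x_i + R_i Z) = Z A_i`, `i = 1, …, m`. The degrees of `T` and `A_i` are at most `q`; the absolute values of their
coefficients and of the entries of the `R_i` and the growth of the coefficients of `Z` and of the denominators of the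
coefficients of `Z` and `W` are bounded by `H`. -/
structure Family (q : ℕ) (H : ℝ) (T : MvPolynomial (Fin m) ℤ) (A : Fin m → Fin n → Fin n → MvPolynomial (Fin m) ℤ)
    (R : Fin m → Matrix (Fin n) (Fin n) ℤ) (Z W : Matrix (Fin n) (Fin n) (MvPowerSeries (Fin m) ℚ)) : Prop where
  /-- the degree of `T` -/
  degT : T.totalDegree ≤ q
  /-- the height of `T` -/
  sizeT : ∀ ν, |((T.coeff ν : ℤ) : ℝ)| ≤ H
  /-- the degrees of the `A_i` -/
  degA : ∀ i a b, (A i a b).totalDegree ≤ q
  /-- the heights of the `A_i` -/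
  sizeA : ∀ i a b ν, |(((A i a b).coeff ν : ℤ) : ℝ)| ≤ H
  /-- the residues commute -/
  comm : ∀ i i', R i * R i' = R i' * R i
  /-- the residues are nilpotent -/
  nil : ∀ i, R i ^ n = 0
  /-- the size of the residues -/
  sizeR : ∀ i a b, |((R i a b : ℤ) : ℝ)| ≤ H
  /-- the differential equations -/
  ode : ∀ i a b, toQ T * (MvPowerSeries.X i * partialD i (Z a b) + ∑ c, MvPowerSeries.C (R i a c : ℚ) * Z c b) =
    ∑ l, Z a l * toQ (A i l b)
  /-- `W` is the inverse of `Z` -/
  inv : W * Z = 1
  /-- the growth of the coefficients -/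
  size : ∀ a b (ν : Fin m →₀ ℕ), |((MvPowerSeries.coeff ν (Z a b) : ℚ) : ℝ)| ≤ H ^ (∑ i, ν i + 1)
  /-- the growth of the common denominators of the coefficients -/
  den : ∀ k : ℕ, ∃ d : ℕ, 0 < d ∧ (d : ℝ) ≤ H ^ (k + 1) ∧ ∀ a b (ν : Fin m →₀ ℕ), ∑ i, ν i ≤ k →
    (∃ z : ℤ, (d : ℚ) * MvPowerSeries.coeff ν (Z a b) = z) ∧ ∃ z : ℤ, (d : ℚ) * MvPowerSeries.coeff ν (W a b) = z

/-- the matrix `R_1 + … + R_m`, the residue of the restriction to a line through `0`, over `ℂ` -/
noncomputable def residue (R : Fin m → Matrix (Fin n) (Fin n) ℤ) : Matrix (Fin n) (Fin n) ℂ :=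
  (∑ i, R i).map (Int.castRingHom ℂ)

/-- the power series `f(x a)` in the variable `x`, the restriction of `f` to the line through `0` with direction `a` -/
noncomputable def restrict (a : Fin m → ℤ) (f : MvPowerSeries (Fin m) ℚ) : PowerSeries ℚ :=
  PowerSeries.mk fun k => ∑ ν ∈ (Finset.univ : Finset (Fin m)).finsuppAntidiag k,
    MvPowerSeries.coeff ν f * ∏ i, (a i : ℚ) ^ ν i

/-- the value `Z(a / b)`, that is, the value of the restriction of `Z` to the line at `x = 1 / b` -/
noncomputable def value (Z : Matrix (Fin n) (Fin n) (MvPowerSeries (Fin m) ℚ)) (a : Fin m → ℤ) (b : ℕ) :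
    Matrix (Fin n) (Fin n) ℂ :=
  Matrix.of fun i j => ((∑' k : ℕ, ((coeff k (restrict a (Z i j)) : ℚ) : ℝ) * (1 / (b : ℝ)) ^ k : ℝ) : ℂ)

/-- the matrix `u^(R_1 + … + R_m) Z(a u)` at `u = 1 / b`, that is, `exp (-log(b) (R_1 + … + R_m)) Z(a / b)` -/
noncomputable def solution (R : Fin m → Matrix (Fin n) (Fin n) ℤ) (Z : Matrix (Fin n) (Fin n) (MvPowerSeries (Fin m) ℚ))
    (a : Fin m → ℤ) (b : ℕ) : Matrix (Fin n) (Fin n) ℂ :=
  NormedSpace.exp (-((Real.log b : ℂ) • residue R)) * value Z a b

/-- the restriction of `Z` to the line with direction `a`, over `ℂ` -/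
noncomputable def onLine (a : Fin m → ℤ) (Z : Matrix (Fin n) (Fin n) (MvPowerSeries (Fin m) ℚ)) :
    Matrix (Fin n) (Fin n) (PowerSeries ℂ) :=
  Z.map fun f => PowerSeries.map (algebraMap ℚ ℂ) (restrict a f)

/-- `(X_1, …, X_N)` is an infinitesimal symmetry of the matrices `Y_1, …, Y_N` of power series: for all polynomial relations
`R(x, Y_1(x), …, Y_N(x)) = 0` over `ℂ[x]` the derivative of `R(x, (1 + ε X_1) Y_1(x), …, (1 + ε X_N) Y_N(x))` at `ε = 0` is
zero. -/
def Symmetry (Y : Fin N → Matrix (Fin n) (Fin n) (PowerSeries ℂ)) (X : Fin N → Matrix (Fin n) (Fin n) ℂ) : Prop :=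
  ∀ R : MvPolynomial (Fin N × Fin n × Fin n) (Polynomial ℂ),
    MvPolynomial.aeval (fun σ => Y σ.1 σ.2.1 σ.2.2) R = 0 →
    ∑ σ, MvPolynomial.aeval (fun σ => Y σ.1 σ.2.1 σ.2.2) (MvPolynomial.pderiv σ R) *
      ((X σ.1).map (PowerSeries.C (R := ℂ)) * Y σ.1) σ.2.1 σ.2.2 = 0

end several

/-- `y` satisfies an equation `P(ξ, y) = 0` where `P` has rational coefficients and total degree at most `e` and `P(ξ, Y)` is
not the zero polynomial. All algebraic numbers of degree at most `e` and all polynomials of degree at most `e` in the `ξ_i` with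
rational coefficients have this property. -/
def AlgebraicOver (e : ℕ) {u : ℕ} (ξ : Fin u → ℂ) (y : ℂ) : Prop :=
  ∃ P : MvPolynomial (Option (Fin u)) ℚ, P.totalDegree ≤ e ∧ MvPolynomial.aeval (fun o : Option (Fin u) => o.elim y ξ) P = 0 ∧
    ∃ y' : ℂ, MvPolynomial.aeval (fun o : Option (Fin u) => o.elim y' ξ) P ≠ 0

/-- numbers which are algebraic over `ℚ(ξ_1, …, ξ_u)` are algebraic of bounded degree -/
theorem algebraicOver_of_isAlgebraic {u : ℕ} {ξ : Fin u → ℂ} {y : ℂ}
    (h : IsAlgebraic (IntermediateField.adjoin ℚ (Set.range ξ)) y) : ∃ e, AlgebraicOver e ξ y :=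
  Pool.Agent.H885.algD_of_alg h

/-- the distance of `b` and `c` is larger than `2^(m+1) H (h + 2)` -/
def Far (m : ℕ) (H : ℝ) (h b c : ℕ) : Prop := 2 ^ (m + 1) * H * ((h : ℝ) + 2) < |(b : ℝ) - c|
section
variable {n N r₀ : ℕ}

/-- the block matrix `x ⊕ X_1 ⊕ … ⊕ X_N` -/
def total (x : Matrix (Fin r₀) (Fin r₀) ℂ) (X : Fin N → Matrix (Fin n) (Fin n) ℂ) :
    Matrix (Fin r₀ ⊕ (Fin n × Fin N)) (Fin r₀ ⊕ (Fin n × Fin N)) ℂ :=
  Matrix.fromBlocks x 0 0 (Matrix.blockDiagonal X)

/-- the tuples of the matrices `C_j X_j C_j⁻¹` with `X ∈ 𝔤` -/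
def conjugate (C : Fin N → Matrix (Fin n) (Fin n) ℂ) (𝔤 : Submodule ℂ (Fin N → Matrix (Fin n) (Fin n) ℂ)) :
    Submodule ℂ (Fin N → Matrix (Fin n) (Fin n) ℂ) where
  carrier := {Y | ∃ X ∈ 𝔤, ∀ j, Y j = C j * X j * (C j)⁻¹}
  zero_mem' := ⟨0, 𝔤.zero_mem, fun j => by rw [Pi.zero_apply, Matrix.mul_zero, Matrix.zero_mul]⟩
  add_mem' := by
    rintro Y Y' ⟨X, hX, h⟩ ⟨X', hX', h'⟩
    refine ⟨X + X', 𝔤.add_mem hX hX', fun j => ?_⟩
    rw [Pi.add_apply, Pi.add_apply, Matrix.mul_add, Matrix.add_mul, h, h']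
  smul_mem' := by
    rintro c Y ⟨X, hX, h⟩
    refine ⟨c • X, 𝔤.smul_mem c hX, fun j => ?_⟩
    rw [Pi.smul_apply, Pi.smul_apply, Matrix.mul_smul, Matrix.smul_mul, h]

end
section blocks
variable {n N r₀ : ℕ}

/-- the space of all `(X_1, …, X_N)` with `0 ⊕ X_1 ⊕ … ⊕ X_N ∈ 𝔥` -/
def inBlocks (𝔥 : Submodule ℂ (Matrix (Fin r₀ ⊕ (Fin n × Fin N)) (Fin r₀ ⊕ (Fin n × Fin N)) ℂ)) :
    Submodule ℂ (Fin N → Matrix (Fin n) (Fin n) ℂ) where
  carrier := {X | total 0 X ∈ 𝔥}
  zero_mem' := by
    have h : total (0 : Matrix (Fin r₀) (Fin r₀) ℂ) (0 : Fin N → Matrix (Fin n) (Fin n) ℂ) = 0 :=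
      Pool.Agent.Helper880_EX.Tot_zero
    show total 0 (0 : Fin N → Matrix (Fin n) (Fin n) ℂ) ∈ 𝔥
    rw [h]
    exact 𝔥.zero_mem
  add_mem' := by
    intro X Y hX hY
    have h : total (0 : Matrix (Fin r₀) (Fin r₀) ℂ) (X + Y) = total 0 X + total 0 Y := Pool.Agent.Helper880_EX.Tot_add _ _
    show total 0 (X + Y) ∈ 𝔥
    rw [h]
    exact 𝔥.add_mem hX hY
  smul_mem' := by
    intro c X hX
    have h : total (0 : Matrix (Fin r₀) (Fin r₀) ℂ) (c • X) = c • total 0 X := Pool.Agent.Helper880_EX.Tot_smul _ _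
    show total 0 (c • X) ∈ 𝔥
    rw [h]
    exact 𝔥.smul_mem _ hX
end blocks

/-- `y` is an algebraic number of degree at most `e` -/
def AlgebraicNumber (e : ℕ) (y : ℂ) : Prop := ∃ p : Polynomial ℚ, p ≠ 0 ∧ p.natDegree ≤ e ∧ Polynomial.aeval y p = 0

section classes
variable {B : Type} [Fintype B] [DecidableEq B]

/-- **de Rham–Betti classes.** `P` is the period matrix of `V`, that is, the matrix of the comparison isomorphism from `V_dR` to
`V_B` for bases over `ℚ`. The pair of the tensors `α ∈ V_dR^(⊗ d)` and `β ∈ V_B^(⊗ d)`, given by their coordinates, which are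
algebraic numbers of degree at most `e`, is a de Rham–Betti class up to the factor `τ` if the comparison isomorphism
maps `α` to `τ β`. Here `τ` is any complex number, for example a power of `2 π i`: the Grothendieck classes of the
problem are those with `V = H²`, `d = 1`, `τ = 2 π i`, `β` integral. -/
structure IsClass (e d : ℕ) (P : Matrix B B ℂ) (α β : (Fin d → B) → ℂ) (τ : ℂ) : Prop where
  /-- the factor is not zero -/
  factor : τ ≠ 0
  /-- the coordinates of the de Rham tensor are algebraic numbers of degree at most `e` -/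
  deRham : ∀ k, AlgebraicNumber e (α k)
  /-- the coordinates of the Betti tensor are algebraic numbers of degree at most `e`, for example integers -/
  betti : ∀ i, AlgebraicNumber e (β i)
  /-- the comparison isomorphism maps `α` to `τ β` -/
  comparison : ∀ i, ∑ k : Fin d → B, (∏ l, P (i l) (k l)) * α k = τ * β i

/-- the tensor `X β`, for the action of the Lie algebra of matrices on the tensors of degree `d`:
`∑_l (1 ⊗ … ⊗ X ⊗ … ⊗ 1) β` with `X` at the place `l` -/
def act {d : ℕ} (X : Matrix B B ℂ) (β : (Fin d → B) → ℂ) : (Fin d → B) → ℂ :=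
  fun i => ∑ l, ∑ b, X (i l) b * β (Function.update i l b)

/-- the matrices `X` which preserve the lines spanned by all de Rham–Betti classes of degree at most `D` (with coordinates of
degree at most `e`), that is, `X β = c β` -/
def classAlgebra (e D : ℕ) (P : Matrix B B ℂ) : Submodule ℂ (Matrix B B ℂ) where
  carrier := {X | ∀ d ≤ D, ∀ (α β : (Fin d → B) → ℂ) (τ : ℂ), IsClass e d P α β τ → ∃ c : ℂ, ∀ i, act X β i = c * β i}
  zero_mem' := by
    intro d _ α β τ _
    refine ⟨0, fun i => ?_⟩
    unfold act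
    simp only [Matrix.zero_apply, zero_mul, Finset.sum_const_zero]
  add_mem' := by
    intro X Y hX hY d hd α β τ h
    obtain ⟨c, hc⟩ := hX d hd α β τ h
    obtain ⟨c', hc'⟩ := hY d hd α β τ h
    exact ⟨c + c', fun i => (Pool.Agent.H885.DRB.act_add X Y β i).trans (by rw [add_mul, ← hc, ← hc']; rfl)⟩
  smul_mem' := by
    intro a X hX d hd α β τ h
    obtain ⟨c, hc⟩ := hX d hd α β τ h
    exact ⟨a * c, fun i => (Pool.Agent.H885.DRB.act_smul a X β i).trans (by rw [mul_assoc, ← hc]; rfl)⟩

end classes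

/-- A tuple of `N` fibres: denominators `b_j` and numerators `a_j` of the points, systems `T_j, A_j, R_j`, their fundamental matrices
`Z_j` and `W_j = Z_j⁻¹`, the period matrices `C_j` of the limits and `C₀` of the mixed Hodge structure `V_0`, a factor
`κ` and `ℓ` further numbers `γ`, and a space `𝔤` of tuples of matrices, for instance the Lie algebra of the differential
Galois group of the restrictions of the systems to the lines through `0` and the points. -/
structure Fibres (m n N r₀ ℓ : ℕ) where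
  /-- the denominators of the points -/
  b : Fin N → ℕ
  /-- the numerators of the points -/
  a : Fin N → Fin m → ℤ
  /-- the denominators of the systems -/
  T : Fin N → MvPolynomial (Fin m) ℤ
  /-- the matrices of the systems -/
  A : Fin N → Fin m → Fin n → Fin n → MvPolynomial (Fin m) ℤ
  /-- the residues -/
  R : Fin N → Fin m → Matrix (Fin n) (Fin n) ℤ
  /-- the fundamental matrices -/
  Z : Fin N → Matrix (Fin n) (Fin n) (MvPowerSeries (Fin m) ℚ)
  /-- their inverses -/
  W : Fin N → Matrix (Fin n) (Fin n) (MvPowerSeries (Fin m) ℚ)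
  /-- further constants -/
  γ : Fin ℓ → ℂ
  /-- the common factor of the periods -/
  κ : ℂ
  /-- the periods of `V_0` -/
  C₀ : Matrix (Fin r₀) (Fin r₀) ℂ
  /-- the periods of the limits -/
  C : Fin N → Matrix (Fin n) (Fin n) ℂ
  /-- symmetries -/
  𝔤 : Submodule ℂ (Fin N → Matrix (Fin n) (Fin n) ℂ)

section fibres
variable {m n N r₀ ℓ s : ℕ}

/-- the period matrices `C_j exp (-log(b_j) R_j) Z_j(a_j / b_j)` of the fibres -/
noncomputable def Fibres.periods (x : Fibres m n N r₀ ℓ) : Fin N → Matrix (Fin n) (Fin n) ℂ :=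
  fun j => x.C j * solution (x.R j) (x.Z j) (x.a j) (x.b j)

/-- the conjugates `exp (λ R_j) X_j exp (-λ R_j)` -/
noncomputable def Fibres.twist (x : Fibres m n N r₀ ℓ) (lam : ℂ) (X : Fin N → Matrix (Fin n) (Fin n) ℂ) :
    Fin N → Matrix (Fin n) (Fin n) ℂ :=
  fun j => NormedSpace.exp (lam • residue (x.R j)) * X j * NormedSpace.exp (-(lam • residue (x.R j)))

/-- The conditions for a tuple of fibres, see the description of the theorem. -/
structure Fibres.Valid (q M e : ℕ) (β : Fin s → ℂ) (H : ℝ) (h w b₀ : ℕ) (x : Fibres m n N r₀ ℓ) : Prop where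
  /-- the denominators are in the window `[b₀, b₀ + w]` -/
  window : ∀ j, b₀ ≤ x.b j ∧ x.b j ≤ b₀ + w
  /-- they are equal or far from each other -/
  far : ∀ i j, x.b i = x.b j ∨ Far m H h (x.b i) (x.b j)
  /-- at most `M` of them are different -/
  different : (Finset.univ.image x.b).card ≤ M
  /-- the numerators are bounded by `h` -/
  numerators : ∀ j i, |x.a j i| ≤ h
  /-- the systems have degree at most `q`, height and growth constants at most `H` -/
  family : ∀ j, Family q H (x.T j) (x.A j) (x.R j) (x.Z j) (x.W j)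
  /-- the lines are not contained in the polar loci -/
  pole : ∀ j, restrict (x.a j) (toQ (x.T j)) ≠ 0
  /-- the factor is not zero -/
  factor : x.κ ≠ 0
  /-- the periods of `V_0` are algebraic over `ℚ(β, γ)`, up to the factor -/
  central₀ : ∀ i i', AlgebraicOver e (Fin.append β x.γ) (x.κ * x.C₀ i i')
  /-- the periods of the limits are algebraic over `ℚ(β, γ)`, up to the factor -/
  central : ∀ j i i', AlgebraicOver e (Fin.append β x.γ) (x.κ * x.C j i i')
  /-- the period matrices are invertible -/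
  invertible : IsUnit (total x.C₀ x.periods)
  /-- `𝔤` consists of infinitesimal symmetries, separately for each denominator `c` -/
  symmetries : ∀ X ∈ x.𝔤, ∀ c : ℕ,
    Symmetry (fun j => if x.b j = c then onLine (x.a j) (x.Z j) else 1) (fun j => if x.b j = c then X j else 0)
  /-- `𝔤` is stable under the conjugation by `exp (λ R)` -/
  stable : ∀ X ∈ x.𝔤, ∀ lam : ℂ, x.twist lam X ∈ x.𝔤
/-- The monodromy preserves all de Rham–Betti classes up to codimension `r`: the subspace of `C 𝔤 C⁻¹` (the Lie algebra of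
the monodromy group) of all `X` which preserve the lines spanned by **all** de Rham–Betti classes of degree at most `D` of the
object `V_0 ⊕ V_1 ⊕ … ⊕ V_N`, acting on `V_1, …, V_N`, has codimension at most `r`. For a single class `β` this
means that the orbit of the line `ℂ β` under the monodromy group has dimension at most `r`. -/
def Fibres.ClassesUpTo (e D r : ℕ) (x : Fibres m n N r₀ ℓ) : Prop :=
  Module.finrank ℂ (conjugate x.C x.𝔤) ≤
    Module.finrank ℂ (conjugate x.C x.𝔤 ⊓ inBlocks (classAlgebra e D (total x.C₀ x.periods)) :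
      Submodule ℂ (Fin N → Matrix (Fin n) (Fin n) ℂ)) + r

/-- **No divisor classes for big monodromy.** If `𝔤` contains the Lie algebra of the orthogonal group of a nondegenerate
symmetric form `B` in the component `j`, and `r + 2 < n`, then `V_j` has no de Rham–Betti classes: if `α` and `β` are vectors the
coordinates of which are algebraic numbers of degree at most `e`, `τ ≠ 0` and `P_j α = τ β` then `α = β = 0`. -/
def Fibres.NoDivisorClasses (e r : ℕ) (x : Fibres m n N r₀ ℓ) : Prop :=
  ∀ (j : Fin N) (B : Matrix (Fin n) (Fin n) ℂ), IsUnit B → Bᵀ = B →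
    (∀ X : Matrix (Fin n) (Fin n) ℂ, X * B + B * Xᵀ = 0 → (Pi.single j X : Fin N → Matrix (Fin n) (Fin n) ℂ) ∈ x.𝔤) →
    r + 2 < n → ∀ (α β : Fin n → ℂ) (τ : ℂ), τ ≠ 0 → (∀ i, AlgebraicNumber e (α i)) → (∀ i, AlgebraicNumber e (β i)) →
      x.periods j *ᵥ α = τ • β → α = 0 ∧ β = 0

/-- the denominators of two tuples of fibres are far from each other -/
def Separated (H : ℝ) (h : ℕ) (x y : Fibres m n N r₀ ℓ) : Prop := ∀ i j, Far m H h (x.b i) (y.b j)

/-- the denominators `b ≤ B` of the tuples of points `a_j / b` which satisfy the conditions (for the window `{b}`) but for which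
one of the two conclusions with `r = ℓ` is not true -/
def exceptional (m n N r₀ ℓ : ℕ) (q e D : ℕ) (β : Fin s → ℂ) (H : ℝ) (h B : ℕ) : Set ℕ :=
  {b | b ≤ B ∧ ∃ x : Fibres m n N r₀ ℓ, x.Valid q 1 e β H h 0 b ∧ (∀ j, x.b j = b) ∧
    ¬ (x.ClassesUpTo e D ℓ ∧ x.NoDivisorClasses e ℓ)}

end fibres

/-! ## Proofs -/

theorem base_of {m n q : ℕ} {H : ℝ} (hH : 1 ≤ H) {T : MvPolynomial (Fin m) ℤ}
    {A : Fin m → Fin n → Fin n → MvPolynomial (Fin m) ℤ} {R : Fin m → Matrix (Fin n) (Fin n) ℤ}
    {Z W : Matrix (Fin n) (Fin n) (MvPowerSeries (Fin m) ℚ)}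
    (h : Family q H T A R Z W) : Pool.Agent.H885.FamN q H T A R Z W :=
  ⟨hH, h.degT, h.sizeT, h.degA, h.sizeA, h.comm, h.nil, h.sizeR, h.ode, h.inv, h.size, h.den⟩

/-- the solution in terms of the polynomials for the exponential function -/
theorem solution_eq {m n q : ℕ} {H : ℝ} {T : MvPolynomial (Fin m) ℤ}
    {A : Fin m → Fin n → Fin n → MvPolynomial (Fin m) ℤ} {R : Fin m → Matrix (Fin n) (Fin n) ℤ}
    {Z W : Matrix (Fin n) (Fin n) (MvPowerSeries (Fin m) ℚ)} (h : Family q H T A R Z W) (a : Fin m → ℤ) (b : ℕ) :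
    solution R Z a b = Pool.Agent.H885.eP (∑ i, R i) (Complex.log (b : ℝ)) * value Z a b := by
  unfold solution residue
  rw [Pool.Agent.H885.eP_nexp (Pool.Agent.H885.sumR_nil h.comm h.nil), Complex.ofReal_log (by positivity)]

theorem sym_cent {m n N : ℕ} (Z : Fin N → Matrix (Fin n) (Fin n) (MvPowerSeries (Fin m) ℚ)) (a : Fin N → Fin m → ℤ)
    (b : Fin N → ℕ) (β : ℕ) :
    Pool.Agent.H885.cent (Pool.Agent.H885.part b (fun j => Pool.Agent.H885.lineM (a j) (Z j)) β) =
      fun σ : Fin N × Fin n × Fin n => (if b σ.1 = β then onLine (a σ.1) (Z σ.1) else 1) σ.2.1 σ.2.2 := by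
  funext σ
  unfold Pool.Agent.H885.cent Pool.Agent.H885.part
  by_cases hb : b σ.1 = β
  · rw [if_pos hb, if_pos hb]
    rfl
  · rw [if_neg hb, if_neg hb, Matrix.one_apply, Matrix.one_apply]
    split_ifs
    · exact map_one _
    · exact map_zero _

theorem sym_inf {m n N : ℕ} {Z : Fin N → Matrix (Fin n) (Fin n) (MvPowerSeries (Fin m) ℚ)} {a : Fin N → Fin m → ℤ}
    {b : Fin N → ℕ} {β : ℕ} {X : Fin N → Matrix (Fin n) (Fin n) ℂ} :
    Symmetry (fun j => if b j = β then onLine (a j) (Z j) else 1) (fun j => if b j = β then X j else 0) ↔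
    Pool.Agent.H885.InfT (Pool.Agent.H885.part b (fun j => Pool.Agent.H885.lineM (a j) (Z j)) β)
      (fun j => if b j = β then X j else 0) := by
  have h1 := sym_cent Z a b β
  constructor
  · intro h R hR
    rw [h1] at hR ⊢
    refine Eq.trans ?_ (h R hR)
    refine Finset.sum_congr rfl fun σ _ => ?_
    rw [Matrix.mul_apply]
    rfl
  · intro h R hR
    have h2 := h R (by
      rw [h1]
      exact hR)
    rw [h1] at h2
    refine Eq.trans ?_ h2
    refine Finset.sum_congr rfl fun σ _ => ?_
    rw [Matrix.mul_apply]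
    rfl

theorem far_symm {m : ℕ} {H : ℝ} {h b c : ℕ} (hbc : Far m H h b c) : Far m H h c b := by
  unfold Far at hbc ⊢
  rw [abs_sub_comm]
  exact hbc

/-- the conjugates in terms of the polynomials for the exponential function -/
theorem twist_eq {m n N r₀ ℓ : ℕ} {x : Fibres m n N r₀ ℓ} (hR : ∀ j, (∑ i, x.R j i) ^ n = 0) (lam : ℂ)
    (X : Fin N → Matrix (Fin n) (Fin n) ℂ) (j : Fin N) :
    x.twist lam X j = Pool.Agent.H885.eP (∑ i, x.R j i) (-lam) * X j * Pool.Agent.H885.eP (∑ i, x.R j i) lam := by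
  unfold Fibres.twist residue
  rw [Pool.Agent.H885.eP_nexp (hR j), Pool.Agent.H885.eP_nexp (hR j), neg_smul, neg_neg]

/-- the conjugate space does not depend on the point of reference -/
theorem conj_twist {m n N r₀ ℓ : ℕ} {x : Fibres m n N r₀ ℓ} (hR : ∀ j, (∑ i, x.R j i) ^ n = 0)
    (hst : ∀ X ∈ x.𝔤, ∀ lam : ℂ, x.twist lam X ∈ x.𝔤) (lt : ℂ) :
    Pool.Agent.H885.conjT (fun j => x.C j * Pool.Agent.H885.eP (∑ i, x.R j i) lt) x.𝔤 =
      Pool.Agent.H885.conjT x.C x.𝔤 := by
  have hi1 : ∀ j, Pool.Agent.H885.eP (∑ i, x.R j i) (-lt) * Pool.Agent.H885.eP (∑ i, x.R j i) lt = 1 := fun j =>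
    Pool.Agent.H885.eP_inv (hR j) lt
  have hi2 : ∀ j, Pool.Agent.H885.eP (∑ i, x.R j i) lt * Pool.Agent.H885.eP (∑ i, x.R j i) (-lt) = 1 := fun j => by
    have h1 := Pool.Agent.H885.eP_inv (hR j) (-lt)
    rwa [neg_neg] at h1
  have hinv : ∀ j, (x.C j * Pool.Agent.H885.eP (∑ i, x.R j i) lt)⁻¹ = Pool.Agent.H885.eP (∑ i, x.R j i) (-lt) * (x.C j)⁻¹ :=
    fun j => by rw [Matrix.mul_inv_rev, Matrix.inv_eq_left_inv (hi1 j)]
  ext Y
  constructor
  · rintro ⟨X, hX, h⟩
    refine ⟨x.twist (-lt) X, hst X hX _, fun j => ?_⟩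
    rw [h j, hinv, twist_eq hR, neg_neg]
    simp only [Matrix.mul_assoc]
  · rintro ⟨X, hX, h⟩
    refine ⟨x.twist lt X, hst X hX _, fun j => ?_⟩
    rw [h j, hinv, twist_eq hR]
    have h1 : x.C j * Pool.Agent.H885.eP (∑ i, x.R j i) lt * (Pool.Agent.H885.eP (∑ i, x.R j i) (-lt) * X j *
        Pool.Agent.H885.eP (∑ i, x.R j i) lt) * (Pool.Agent.H885.eP (∑ i, x.R j i) (-lt) * (x.C j)⁻¹) =
        x.C j * (Pool.Agent.H885.eP (∑ i, x.R j i) lt * Pool.Agent.H885.eP (∑ i, x.R j i) (-lt)) * X j *
          (Pool.Agent.H885.eP (∑ i, x.R j i) lt * Pool.Agent.H885.eP (∑ i, x.R j i) (-lt)) * (x.C j)⁻¹ := by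
      simp only [Matrix.mul_assoc]
    rw [h1, hi2, Matrix.mul_one, Matrix.mul_one]

/-- the periods -/
theorem periods_eq {m n N r₀ ℓ q : ℕ} {H : ℝ} {x : Fibres m n N r₀ ℓ} (hF : ∀ j, Family q H (x.T j) (x.A j) (x.R j) (x.Z j) (x.W j))
    {t₀ : ℕ} (ht₀ : 0 < t₀) (hb : ∀ j, 0 < x.b j) (j : Fin N) :
    solution (x.R j) (x.Z j) (x.a j) (x.b j) = Pool.Agent.H885.eP (∑ i, x.R j i) (Complex.log (t₀ : ℝ)) *
      Pool.Agent.H885.zT t₀ (∑ i, x.R j i) (Pool.Agent.H885.lineM (x.a j) (x.Z j)) (x.b j) := by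
  rw [solution_eq (hF j)]
  unfold Pool.Agent.H885.zT
  have hb' : (0 : ℝ) < x.b j := by exact_mod_cast hb j
  have ht' : (0 : ℝ) < t₀ := by exact_mod_cast ht₀
  have h1 : Complex.log ((x.b j : ℝ) : ℂ) = Complex.log ((t₀ : ℝ) : ℂ) + Complex.log (((x.b j : ℝ) : ℂ) / ((t₀ : ℝ) : ℂ)) := by
    rw [← Complex.ofReal_div, ← Complex.ofReal_log hb'.le, ← Complex.ofReal_log ht'.le, ← Complex.ofReal_log (by positivity),
      Real.log_div hb'.ne' ht'.ne']
    push_cast
    ring
  rw [h1, Pool.Agent.H885.eP_add (Pool.Agent.H885.sumR_nil (hF j).comm (hF j).nil), ← Matrix.mul_assoc]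
  rfl
/-! ### Consequences for big monodromy -/

theorem cls_iff {B : Type} [Fintype B] [DecidableEq B] {e d : ℕ} {P : Matrix B B ℂ} {α β : (Fin d → B) → ℂ} {τ : ℂ} :
    IsClass e d P α β τ ↔ Pool.Agent.H885.DRB.Cls e d P α β τ :=
  ⟨fun h => ⟨h.factor, h.deRham, h.betti, h.comparison⟩, fun h => ⟨h.ne, h.algα, h.algβ, h.cmp⟩⟩

theorem algebra_eq {B : Type} [Fintype B] [DecidableEq B] {e D : ℕ} {P : Matrix B B ℂ} :
    classAlgebra e D P = Pool.Agent.H885.DRB.dRB e D P := by
  ext X
  exact ⟨fun h d hd α β τ hc => h d hd α β τ (cls_iff.2 hc), fun h d hd α β τ hc => h d hd α β τ (cls_iff.1 hc)⟩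

/-- if some number is algebraic of degree at most `e` then `0` is -/
theorem algebraic_zero {e : ℕ} {y : ℂ} (h : AlgebraicNumber e y) : AlgebraicNumber e 0 := by
  obtain ⟨p, h0, h1, h2⟩ := h
  refine ⟨Polynomial.X, Polynomial.X_ne_zero, ?_, by rw [Polynomial.aeval_X]⟩
  rw [Polynomial.natDegree_X]
  by_contra hcon
  have h3 : p.natDegree = 0 := by omega
  rw [Polynomial.eq_C_of_natDegree_eq_zero h3, Polynomial.aeval_C] at h2
  have h4 : p.coeff 0 = 0 := by
    have h5 : ((p.coeff 0 : ℚ) : ℂ) = 0 := h2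
    exact_mod_cast h5
  apply h0
  rw [Polynomial.eq_C_of_natDegree_eq_zero h3, h4, map_zero]

/-- the vector in the component `j` -/
def inComponent {n N r₀ : ℕ} (j : Fin N) (v : Fin n → ℂ) : Fin r₀ ⊕ (Fin n × Fin N) → ℂ :=
  Sum.elim (fun _ => 0) fun p => if p.2 = j then v p.1 else 0

theorem total_component {n N r₀ : ℕ} (x : Matrix (Fin r₀) (Fin r₀) ℂ) (X : Fin N → Matrix (Fin n) (Fin n) ℂ) (j : Fin N)
    (v : Fin n → ℂ) (i : Fin r₀ ⊕ (Fin n × Fin N)) :
    ∑ b, total x X i b * inComponent j v b = inComponent (r₀ := r₀) j (X j *ᵥ v) i := by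
  classical
  rw [Fintype.sum_sum_type]
  unfold total inComponent
  rcases i with i | ⟨i, a⟩
  · simp only [Sum.elim_inl, Sum.elim_inr, Matrix.fromBlocks_apply₁₁, Matrix.fromBlocks_apply₁₂, mul_zero,
      Finset.sum_const_zero, Matrix.zero_apply, zero_mul, add_zero]
  · simp only [Sum.elim_inl, Sum.elim_inr, Matrix.fromBlocks_apply₂₁, Matrix.fromBlocks_apply₂₂, mul_zero,
      Finset.sum_const_zero, Matrix.zero_apply, zero_add]
    rw [Fintype.sum_prod_type]
    have h1 : ∀ k : Fin n, ∑ a', Matrix.blockDiagonal X (i, a) (k, a') * (if a' = j then v k else 0) =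
        X a i k * (if a = j then v k else 0) := by
      intro k
      rw [Finset.sum_eq_single a]
      · rw [Matrix.blockDiagonal_apply, if_pos rfl]
      · intro a' _ ha'
        rw [Matrix.blockDiagonal_apply, if_neg (Ne.symm ha'), zero_mul]
      · intro h
        exact absurd (Finset.mem_univ _) h
    rw [Finset.sum_congr rfl fun k _ => h1 k]
    by_cases ha : a = j
    · subst ha
      simp only [if_true]
      rfl
    · simp only [if_neg ha, mul_zero, Finset.sum_const_zero]

/-- from the bound for block matrices to the two conclusions -/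
theorem concl {m n N r₀ ℓ e D r : ℕ} (hD : 1 ≤ D) {x : Fibres m n N r₀ ℓ} (hu : IsUnit (total x.C₀ x.periods))
    (h : Module.finrank ℂ (Pool.Agent.H885.blT r₀ (Pool.Agent.H885.conjT x.C x.𝔤)) ≤
        Module.finrank ℂ (Pool.Agent.H885.blT r₀ (Pool.Agent.H885.conjT x.C x.𝔤) ⊓
          Pool.Agent.H885.DRB.dRB e D (total x.C₀ x.periods) : Submodule ℂ _) + r) :
    x.ClassesUpTo e D r ∧ x.NoDivisorClasses e r := by
  classical
  have hinj : Function.Injective (Pool.Agent.Helper880_MX.TotL r₀ n N) := by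
    intro X Y hXY
    funext j
    ext i k
    have h1 : total (0 : Matrix (Fin r₀) (Fin r₀) ℂ) X = total 0 Y := hXY
    have h2 := congrFun (congrFun h1 (Sum.inr (i, j))) (Sum.inr (k, j))
    unfold total at h2
    simp only [Matrix.fromBlocks_apply₂₂, Matrix.blockDiagonal_apply, if_true] at h2
    exact h2
  have hfr : ∀ p : Submodule ℂ (Fin N → Matrix (Fin n) (Fin n) ℂ),
      Module.finrank ℂ (Pool.Agent.H885.blT r₀ p) = Module.finrank ℂ p := fun p =>
    ((Submodule.equivMapOfInjective _ hinj p).finrank_eq).symm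
  have hconj : Pool.Agent.H885.conjT x.C x.𝔤 = conjugate x.C x.𝔤 := rfl
  have hinf : (Pool.Agent.H885.blT r₀ (conjugate x.C x.𝔤) ⊓ Pool.Agent.H885.DRB.dRB e D (total x.C₀ x.periods) :
      Submodule ℂ _) = Pool.Agent.H885.blT r₀ (conjugate x.C x.𝔤 ⊓ inBlocks (classAlgebra e D (total x.C₀ x.periods))) := by
    rw [algebra_eq]
    ext Y
    constructor
    · rintro ⟨⟨X, hX, rfl⟩, hY⟩
      exact ⟨X, ⟨hX, hY⟩, rfl⟩
    · rintro ⟨X, ⟨hX, hY⟩, rfl⟩
      exact ⟨⟨X, hX, rfl⟩, hY⟩
  rw [hconj, hinf, hfr, hfr] at h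
  refine ⟨h, fun j B hB hBs hg hr α β τ hτ hα hβ hP => ?_⟩
  have hud := (Pool.Agent.Helper880_R3.Tot_unit hu).2 j
  have hPj : IsUnit (x.periods j).det := (Matrix.isUnit_iff_isUnit_det _).1 hud
  have hCj : IsUnit (x.C j).det := by
    have h1 : x.periods j = x.C j * solution (x.R j) (x.Z j) (x.a j) (x.b j) := rfl
    rw [h1, Matrix.det_mul] at hPj
    exact isUnit_of_mul_isUnit_left hPj
  have hβ0 : β = 0 := by
    by_contra hne
    have h1 : n ≤ r + 2 := by
      refine Pool.Agent.H885.DRB.line_orbit j hB hBs hCj hne (conjugate x.C x.𝔤)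
        (conjugate x.C x.𝔤 ⊓ inBlocks (classAlgebra e D (total x.C₀ x.periods))) inf_le_left (fun X hX => ?_)
        (fun Y hY => ?_) h
      · refine ⟨_, hg X hX, fun i => ?_⟩
        by_cases hi : i = j
        · subst hi
          rw [Pi.single_eq_same, Pi.single_eq_same]
        · rw [Pi.single_eq_of_ne hi, Pi.single_eq_of_ne hi, Matrix.mul_zero, Matrix.zero_mul]
      · have hn : 0 < n := by omega
        have h0α := algebraic_zero (hα ⟨0, hn⟩)
        have hcomp : ∀ v : Fin n → ℂ, (∀ i, AlgebraicNumber e (v i)) → ∀ b, AlgebraicNumber e (inComponent (r₀ := r₀) j v b) := by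
          intro v hv b
          rcases b with b | ⟨b, a⟩
          · exact h0α
          · show AlgebraicNumber e (if a = j then v b else 0)
            split_ifs
            · exact hv b
            · exact h0α
        have hcl : IsClass e 1 (total x.C₀ x.periods) (fun K => inComponent j α (K 0)) (fun K => inComponent j β (K 0)) τ := by
          refine ⟨hτ, fun K => hcomp α hα _, fun K => hcomp β hβ _, fun i => ?_⟩
          have h2 : ∑ K : Fin 1 → Fin r₀ ⊕ (Fin n × Fin N),
              (∏ l, total x.C₀ x.periods (i l) (K l)) * inComponent j α (K 0) =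
              ∑ b, total x.C₀ x.periods (i 0) b * inComponent j α b := by
            refine Fintype.sum_equiv (Equiv.funUnique (Fin 1) _) _ _ fun K => ?_
            rw [Fin.prod_univ_one]
            rfl
          rw [h2, total_component, hP]
          unfold inComponent
          rcases i 0 with b | ⟨b, a⟩
          · simp only [Sum.elim_inl, mul_zero]
          · simp only [Sum.elim_inr]
            split_ifs
            · rfl
            · rw [mul_zero]
        obtain ⟨c, hc⟩ := (hY.2 : total 0 Y ∈ classAlgebra e D (total x.C₀ x.periods)) 1 hD _ _ τ hcl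
        refine ⟨c, ?_⟩
        funext i
        have h3 := hc fun _ => Sum.inr (i, j)
        unfold act at h3
        rw [Fin.sum_univ_one] at h3
        have h4 : ∑ b, total (0 : Matrix (Fin r₀) (Fin r₀) ℂ) Y (Sum.inr (i, j)) b *
            inComponent j β (Function.update (fun _ : Fin 1 => (Sum.inr (i, j) : Fin r₀ ⊕ (Fin n × Fin N))) 0 b 0) =
            ∑ b, total (0 : Matrix (Fin r₀) (Fin r₀) ℂ) Y (Sum.inr (i, j)) b * inComponent j β b := by
          refine Finset.sum_congr rfl fun b _ => ?_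
          rw [Function.update_self]
        rw [h4, total_component] at h3
        unfold inComponent at h3
        simp only [Sum.elim_inr, if_true] at h3
        exact h3
    omega
  refine ⟨?_, hβ0⟩
  rw [hβ0, smul_zero] at hP
  have h1 := congrArg (fun w => (x.periods j)⁻¹ *ᵥ w) hP
  simp only [Matrix.mulVec_mulVec, Matrix.nonsing_inv_mul _ hPj, Matrix.one_mulVec, Matrix.mulVec_zero] at h1
  exact h1

/-- the two conclusions are monotone in `r` -/
theorem mono {m n N r₀ ℓ e D r r' : ℕ} {x : Fibres m n N r₀ ℓ} (hr : r ≤ r')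
    (h : x.ClassesUpTo e D r ∧ x.NoDivisorClasses e r) : x.ClassesUpTo e D r' ∧ x.NoDivisorClasses e r' :=
  ⟨h.1.trans (Nat.add_le_add_left hr _), fun j B hB hBs hg hr' α β τ hτ hα hβ hP =>
    h.2 j B hB hBs hg (by omega) α β τ hτ hα hβ hP⟩


/-- a bounded number of separated tuples -/
theorem core (m n N r₀ q s ℓ e D L : ℕ) (hD : 1 ≤ D) : ∃ E : ℕ, ∀ (M : ℕ) (β : Fin s → ℂ) (H : ℝ)
    (h w b₀ : ℕ), 1 ≤ H → (2 * H * ((h : ℝ) + w + 2)) ^ E ≤ (b₀ : ℝ) → ∀ x : Fin L → Fibres m n N r₀ ℓ,
    (∀ l, (x l).Valid q M e β H h w b₀) → (∀ l l', l ≠ l' → Separated H h (x l) (x l')) →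
    ∃ ρ : Fin L → ℕ, ∑ l, ρ l ≤ s + 1 ∧ ∀ l, (x l).ClassesUpTo e D (ρ l + ℓ) ∧ (x l).NoDivisorClasses e (ρ l + ℓ) := by
  classical
  set e' : ℕ := max e (max 1 n) with he'
  obtain ⟨E₀, hbase⟩ := Pool.Agent.H885.base_sysN m n q
  obtain ⟨E, hE⟩ := Pool.Agent.H885.ZW.uniformZW n N q r₀ (s + 1) ℓ e' L
    (Pool.Agent.H885.DRB.compat_dRB r₀ n N e D)
  obtain ⟨e₁, he₁⟩ := Pool.Agent.H885.pow_absorb (c := (2 : ℝ) * (1 + 2 ^ m)) (by
    have : (1 : ℝ) ≤ 2 ^ m := one_le_pow₀ (by norm_num)
    linarith)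
  refine ⟨(e₁ + E₀ + 1) * E + 1, fun M β H h w b₀ hH hbig₀ xs hxs hsep => ?_⟩
  set x : ℝ := 2 * H * ((h : ℝ) + w + 2) with hx
  have hh0 : (0 : ℝ) ≤ h := by positivity
  have hw0 : (0 : ℝ) ≤ w := by positivity
  have hx1 : (h : ℝ) + w + 2 ≤ x := by
    rw [hx]
    nlinarith
  have hx2 : 2 ≤ x := by linarith
  have hx3 : H * ((h : ℝ) + 2) ≤ x := by
    rw [hx]
    nlinarith
  have hx4 : 2 * H * ((h : ℝ) + 2) ≤ x := by
    rw [hx]
    nlinarith
  have hb₀ : 0 < b₀ := by
    have h1 : (1 : ℝ) ≤ x ^ ((e₁ + E₀ + 1) * E + 1) := one_le_pow₀ (by linarith)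
    have h2 : (1 : ℝ) ≤ b₀ := h1.trans hbig₀
    exact_mod_cast h2
  have hbig : x ^ ((e₁ + E₀ + 1) * E) ≤ (b₀ : ℝ) := (pow_le_pow_right₀ (by linarith) (Nat.le_succ _)).trans hbig₀
  have hbig' : (2 * (2 * H * ((h : ℝ) + 2)) ^ E₀ * ((w : ℝ) + 2 ^ m * (H * ((h : ℝ) + 2)) + 2)) ^ E ≤ (b₀ : ℝ) := by
    refine le_trans ?_ hbig
    rw [pow_mul]
    refine pow_le_pow_left₀ (by positivity) ?_ E
    have h1 : (2 * H * ((h : ℝ) + 2)) ^ E₀ ≤ x ^ E₀ := pow_le_pow_left₀ (by positivity) hx4 _
    have h2 : (w : ℝ) + 2 ^ m * (H * ((h : ℝ) + 2)) + 2 ≤ (1 + 2 ^ m) * x := by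
      have h3 : (2 : ℝ) ^ m * (H * ((h : ℝ) + 2)) ≤ 2 ^ m * x := mul_le_mul_of_nonneg_left hx3 (by positivity)
      linarith
    calc 2 * (2 * H * ((h : ℝ) + 2)) ^ E₀ * ((w : ℝ) + 2 ^ m * (H * ((h : ℝ) + 2)) + 2) ≤
        2 * x ^ E₀ * ((1 + 2 ^ m) * x) := by
          refine mul_le_mul (by linarith) h2 (by positivity) (by positivity)
      _ = (2 * (1 + 2 ^ m)) * (x ^ E₀ * x) := by ring
      _ ≤ x ^ e₁ * (x ^ E₀ * x) := mul_le_mul_of_nonneg_right (he₁ x hx2) (by positivity)
      _ = x ^ (e₁ + E₀ + 1) := by ring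
  have hFar : ∀ b c : ℕ, Far m H h b c → 2 * (2 ^ m * (H * ((h : ℝ) + 2))) < |(b : ℝ) - c| := by
    intro b c hbc
    refine lt_of_eq_of_lt ?_ hbc
    ring
  have hH1 : (1 : ℝ) ≤ (2 * H * ((h : ℝ) + 2)) ^ E₀ := one_le_pow₀ (by nlinarith)
  have hfam := fun l j => hbase H _ _ _ _ _ (base_of hH ((hxs l).family j)) h _ ((hxs l).numerators j) ((hxs l).pole j)
  choose T' B' hT' hS' using hfam
  have hR : ∀ l j, (∑ i, (xs l).R j i) ^ n = 0 := fun l j =>
    Pool.Agent.H885.sumR_nil ((hxs l).family j).comm ((hxs l).family j).nil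
  set X : Pool.Agent.H885.DatX L n N := ⟨fun l j => ∑ i, (xs l).R j i, (2 * H * ((h : ℝ) + 2)) ^ E₀, T', B',
    fun l j => Pool.Agent.H885.lineM ((xs l).a j) ((xs l).Z j), fun l j => Pool.Agent.H885.lineM ((xs l).a j) ((xs l).W j),
    2 ^ m * (H * ((h : ℝ) + 2)), w, b₀, fun l => (xs l).b, fun l => (xs l).𝔤⟩ with hX
  have ht0 : 0 < X.t := by
    unfold Pool.Agent.H885.DatX.t
    omega
  set lt : ℂ := Complex.log ((X.t : ℝ) : ℂ) with hlt
  set Y : Pool.Agent.H885.ZW.DatZ L n N r₀ (s + 1) ℓ := ⟨Fin.cons lt β, fun l => (xs l).γ, fun l => (xs l).κ,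
    fun l => (xs l).C₀, fun l => (xs l).C, fun l j => Pool.Agent.H885.eP (∑ i, (xs l).R j i) lt, fun l j => X.z l j,
    fun l => (xs l).𝔤⟩ with hY
  have hsol : ∀ l j, solution ((xs l).R j) ((xs l).Z j) ((xs l).a j) ((xs l).b j) =
      Pool.Agent.H885.eP (∑ i, (xs l).R j i) lt * X.z l j := fun l j =>
    periods_eq (hxs l).family ht0 (fun j => lt_of_lt_of_le hb₀ ((hxs l).window j).1) j
  have hP : ∀ l, Y.P l = total (xs l).C₀ (xs l).periods := by
    intro l
    have h1 : (fun j => Y.C l j * Y.z l j) = (xs l).periods := by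
      funext j
      show (xs l).C j * Pool.Agent.H885.eP (∑ i, (xs l).R j i) lt * X.z l j = (xs l).C j * solution _ _ _ _
      rw [hsol, Matrix.mul_assoc]
    show Pool.Agent.Helper880_R3.Tot (xs l).C₀ (fun j => Y.C l j * Y.z l j) = _
    rw [h1]
    rfl
  have hren : ∀ (l : Fin L) (y : ℂ), AlgebraicOver e (Fin.append β (xs l).γ) y →
      Pool.Agent.H885.AlgD e' (Fin.append (Fin.cons lt β : Fin (s + 1) → ℂ) (xs l).γ) y := by
    intro l y hy
    refine Pool.Agent.H885.AlgD.mono (le_max_left _ _) (Pool.Agent.H885.MW.algD_map (ξ := Fin.append β (xs l).γ)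
      (Fin.addCases (fun i => Fin.castAdd ℓ i.succ) (fun i => Fin.natAdd (s + 1) i)) (fun i => ?_) hy)
    refine Fin.addCases (fun i => ?_) (fun i => ?_) i
    · rw [Fin.addCases_left, Fin.append_left, Fin.append_left, Fin.cons_succ]
    · rw [Fin.addCases_right, Fin.append_right, Fin.append_right]
  have hXOK : X.OK q E := ⟨hH1, hS', hT', by positivity, fun l j a' b' =>
      Pool.Agent.Y120.GH.cx_mem (by positivity) (Pool.Agent.H885.line_size hH (((hxs l).family j).size a' b')
        ((hxs l).numerators j)),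
      fun l j => (hxs l).window j, fun l j l' j' hne => by
        by_cases hll : l = l'
        · subst hll
          rcases (hxs l).far j j' with h2 | h2
          · exact absurd ⟨rfl, h2⟩ hne
          · exact hFar _ _ h2
        · exact hFar _ _ (hsep l l' hll j j'), hbig', fun l Z hZ c lam => by
          have h1 := sym_inf.1 ((hxs l).symmetries _ ((hxs l).stable Z hZ lam) c)
          have h2 : (fun j => if (xs l).b j = c then (xs l).twist lam Z j else 0) =
              fun j => if (xs l).b j = c then Pool.Agent.H885.eP (∑ i, (xs l).R j i) (-lam) * Z j *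
                Pool.Agent.H885.eP (∑ i, (xs l).R j i) lam else 0 := by
            funext j
            rw [twist_eq (hR l)]
          rw [h2] at h1
          exact h1⟩
  have hYOK : Y.OK e' := by
    refine ⟨fun l => (hxs l).factor, fun l i j => hren l _ ((hxs l).central₀ i j), fun l a i j => hren l _ ((hxs l).central a i j),
      fun l a i j => ?_, fun l => ?_⟩
    · have h1 := Pool.Agent.H885.algD_eP ((le_max_left _ _).trans (le_max_right _ _)) ((le_max_right _ _).trans (le_max_right _ _))
        (∑ i, (xs l).R a i) (Fin.append (Fin.cons lt β : Fin (s + 1) → ℂ) (xs l).γ) (Fin.castAdd ℓ 0) i j (e := e')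
      rw [Fin.append_left, Fin.cons_zero] at h1
      exact h1
    · rw [hP]
      exact (hxs l).invertible
  obtain ⟨ρ, hρ, hρ'⟩ := hE X Y hXOK hYOK (fun l j => rfl) (fun l => rfl)
  refine ⟨ρ, hρ, fun l => concl hD (hxs l).invertible ?_⟩
  have h1 := hρ' l _ rfl
  rw [hP] at h1
  have h2 : Pool.Agent.H885.conjT (Y.C l) (Y.𝔤 l) = Pool.Agent.H885.conjT (xs l).C (xs l).𝔤 :=
    conj_twist (hR l) (hxs l).stable lt
  rw [h2] at h1
  exact h1

/-- parts 1 and 2 -/
theorem parts (m n N r₀ M q s ℓ e D : ℕ) (hD : 1 ≤ D) :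
    ∃ E : ℕ, ∀ (β : Fin s → ℂ) (H : ℝ) (h w b₀ : ℕ), 1 ≤ H → (2 * H * ((h : ℝ) + w + 2)) ^ E ≤ (b₀ : ℝ) →
    (∀ (L : ℕ) (x : Fin L → Fibres m n N r₀ ℓ), (∀ l, (x l).Valid q M e β H h w b₀) →
      (∀ l l', l ≠ l' → Separated H h (x l) (x l')) →
      ∃ ρ : Fin L → ℕ, ∑ l, ρ l ≤ s + 1 ∧ ∀ l, (x l).ClassesUpTo e D (ρ l + ℓ) ∧ (x l).NoDivisorClasses e (ρ l + ℓ)) ∧
    ∀ r : ℕ, ℓ ≤ r → ∃ F : Finset ℕ, F.card ≤ M * ((s + 1) / (r + 1 - ℓ)) ∧
      ∀ x : Fibres m n N r₀ ℓ, x.Valid q M e β H h w b₀ → (∀ j, ∀ c ∈ F, Far m H h (x.b j) c) →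
      x.ClassesUpTo e D r ∧ x.NoDivisorClasses e r := by
  classical
  choose E hE using fun L => core m n N r₀ q s ℓ e D L hD
  set E' : ℕ := ∑ L ∈ Finset.range (s + 3), E L with hE'
  have hle : ∀ L, L ≤ s + 2 → E L ≤ E' := fun L hL =>
    Finset.single_le_sum (f := fun L => E L) (fun _ _ => Nat.zero_le _) (Finset.mem_range.2 (by omega : L < s + 3))
  refine ⟨E', fun β H h w b₀ hH hbig => ?_⟩
  have hx1 : (1 : ℝ) ≤ 2 * H * ((h : ℝ) + w + 2) := by
    have h1 : (0 : ℝ) ≤ h := by positivity
    have h2 : (0 : ℝ) ≤ w := by positivity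
    nlinarith
  set Gd : Fibres m n N r₀ ℓ → ℕ → Prop := fun x r => x.ClassesUpTo e D r ∧ x.NoDivisorClasses e r with hGd
  have hGm : ∀ x r r', r ≤ r' → Gd x r → Gd x r' := fun x r r' hr h1 => mono hr h1
  -- at most `s + 2` tuples
  have hcore : ∀ (L : ℕ) (x : Fin L → Fibres m n N r₀ ℓ), L ≤ s + 2 → (∀ l, (x l).Valid q M e β H h w b₀) →
      (∀ l l', l ≠ l' → Separated H h (x l) (x l')) →
      ∃ ρ : Fin L → ℕ, ∑ l, ρ l ≤ s + 1 ∧ ∀ l, Gd (x l) (ρ l + ℓ) := by
    intro L x hL hx hsep
    refine hE L M β H h w b₀ hH ?_ x hx hsep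
    exact (pow_le_pow_right₀ hx1 (hle L hL)).trans hbig
  -- the defect
  have hex : ∀ x : Fibres m n N r₀ ℓ, x.Valid q M e β H h w b₀ → ∃ ρ, Gd x (ρ + ℓ) := by
    intro x hx
    obtain ⟨ρ, -, hρ⟩ := hcore 1 (fun _ => x) (by omega) (fun _ => hx) fun l l' hll => absurd (Subsingleton.elim l l') hll
    exact ⟨ρ 0, hρ 0⟩
  set df : Fibres m n N r₀ ℓ → ℕ := fun x => if hx : x.Valid q M e β H h w b₀ then Nat.find (hex x hx) else 0 with hdf
  have hdf1 : ∀ x : Fibres m n N r₀ ℓ, x.Valid q M e β H h w b₀ → Gd x (df x + ℓ) := by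
    intro x hx
    rw [hdf]
    simp only [dif_pos hx]
    exact Nat.find_spec (hex x hx)
  have hdf2 : ∀ (x : Fibres m n N r₀ ℓ) (ρ : ℕ), x.Valid q M e β H h w b₀ → Gd x (ρ + ℓ) → df x ≤ ρ := by
    intro x ρ hx hρ
    rw [hdf]
    simp only [dif_pos hx]
    exact Nat.find_min' (hex x hx) hρ
  have hmain : ∀ (L : ℕ) (x : Fin L → Fibres m n N r₀ ℓ), (∀ l, (x l).Valid q M e β H h w b₀) →
      (∀ l l', l ≠ l' → Separated H h (x l) (x l')) → ∑ l, df (x l) ≤ s + 1 := by
    intro L x hx hsep
    -- subsets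
    have hsub : ∀ Λ : Finset (Fin L), Λ.card ≤ s + 2 → ∑ l ∈ Λ, df (x l) ≤ s + 1 := by
      intro Λ hΛ
      set f := Λ.orderEmbOfFin rfl with hf
      obtain ⟨ρ, hρ, hρ'⟩ := hcore Λ.card (fun i => x (f i)) hΛ (fun i => hx _) fun i i' hii =>
        hsep _ _ fun h1 => hii (f.injective h1)
      have h1 : ∑ i : Fin Λ.card, df (x (f i)) = ∑ l ∈ Λ, df (x l) := by
        have h2 : Λ = Finset.univ.map f.toEmbedding := by
          rw [hf, ← Finset.coe_inj]
          simp
        conv_rhs => rw [h2, Finset.sum_map]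
        rfl
      rw [← h1]
      exact (Finset.sum_le_sum fun i _ => hdf2 _ _ (hx _) (hρ' i)).trans hρ
    set Λ := Finset.univ.filter fun l => df (x l) ≠ 0 with hΛ
    have h1 : ∑ l, df (x l) = ∑ l ∈ Λ, df (x l) := by
      rw [hΛ, Finset.sum_filter_ne_zero]
    rcases le_or_gt Λ.card (s + 2) with h2 | h2
    · rw [h1]
      exact hsub Λ h2
    · obtain ⟨Λ', hΛ', hcard⟩ := Finset.exists_subset_card_eq (s := Λ) h2.le
      have h3 := hsub Λ' hcard.le
      have h4 : Λ'.card ≤ ∑ l ∈ Λ', df (x l) := by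
        rw [Finset.card_eq_sum_ones]
        refine Finset.sum_le_sum fun l hl => ?_
        have := (Finset.mem_filter.1 (hΛ' hl)).2
        omega
      omega
  refine ⟨fun L x hx hsep => ⟨fun l => df (x l), hmain L x hx hsep, fun l => hdf1 _ (hx l)⟩, fun r hr => ?_⟩
  -- the exceptional denominators
  set P : ℕ → Prop := fun p => ∃ x : Fin p → Fibres m n N r₀ ℓ, (∀ l, (x l).Valid q M e β H h w b₀) ∧
    (∀ l l', l ≠ l' → Separated H h (x l) (x l')) ∧ ∀ l, ¬ Gd (x l) r with hP
  have hPle : ∀ p, P p → p ≤ (s + 1) / (r + 1 - ℓ) := by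
    rintro p ⟨x, hx, hsep, hbad⟩
    rw [Nat.le_div_iff_mul_le (by omega)]
    have h1 := hmain p x hx hsep
    have h2 : ∀ l, r + 1 - ℓ ≤ df (x l) := by
      intro l
      by_contra hcon
      apply hbad l
      exact hGm (x l) (df (x l) + ℓ) r (by omega) (hdf1 (x l) (hx l))
    have h3 : ∑ _l : Fin p, (r + 1 - ℓ) ≤ ∑ l, df (x l) := Finset.sum_le_sum fun l _ => h2 l
    rw [Finset.sum_const, Finset.card_univ, Fintype.card_fin, smul_eq_mul] at h3
    exact h3.trans h1
  have hP0 : P 0 := ⟨fun l => l.elim0, fun l => l.elim0, fun l => l.elim0, fun l => l.elim0⟩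
  obtain ⟨p, hPp, hPp1⟩ : ∃ p, P p ∧ ¬ P (p + 1) := by
    by_contra hcon
    push Not at hcon
    have h1 : ∀ p, P p := by
      intro p
      induction p with
      | zero => exact hP0
      | succ p ih => exact hcon p ih
    have := hPle _ (h1 ((s + 1) / (r + 1 - ℓ) + 1))
    omega
  have hple := hPle p hPp
  obtain ⟨x, hx, hsep, hbad⟩ := hPp
  refine ⟨Finset.univ.biUnion fun l => Finset.univ.image (x l).b, ?_, fun y hy hyF => ?_⟩
  · refine Finset.card_biUnion_le.trans ?_
    refine (Finset.sum_le_card_nsmul _ _ M fun l _ => (hx l).different).trans ?_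
    rw [Finset.card_univ, Fintype.card_fin, smul_eq_mul, mul_comm]
    exact Nat.mul_le_mul_left _ hple
  · by_contra hybad
    apply hPp1
    refine ⟨Fin.cons y x, fun l => ?_, fun l l' hll i j => ?_, fun l => ?_⟩
    · refine Fin.cases ?_ (fun l => ?_) l
      · exact hy
      · exact hx l
    · have hin : ∀ l j, (x l).b j ∈ Finset.univ.biUnion fun l => Finset.univ.image (x l).b := fun l j =>
        Finset.mem_biUnion.2 ⟨l, Finset.mem_univ _, Finset.mem_image_of_mem _ (Finset.mem_univ _)⟩
      rcases Fin.eq_zero_or_eq_succ l with rfl | ⟨l, rfl⟩ <;> rcases Fin.eq_zero_or_eq_succ l' with rfl | ⟨l', rfl⟩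
      · exact absurd rfl hll
      · rw [Fin.cons_zero, Fin.cons_succ]
        exact hyF i _ (hin l' j)
      · rw [Fin.cons_zero, Fin.cons_succ]
        exact far_symm (hyF j _ (hin l i))
      · rw [Fin.cons_succ, Fin.cons_succ]
        exact hsep l l' (fun h1 => hll (by rw [h1])) i j
    · refine Fin.cases ?_ (fun l => ?_) l
      · exact hybad
      · exact hbad l

/-- **The theorem.** Part 1: for separated tuples of fibres the sum of the codimensions of the part of the monodromy which
preserves all de Rham–Betti classes of bounded degree is at most `s + 1` (up to `ℓ` for each tuple). Part 2: the number of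
exceptional denominators in short windows. Part 3: the number of all exceptional denominators. -/
theorem result (m n N r₀ M q s ℓ e D : ℕ) (hD : 1 ≤ D) :
    (∃ E : ℕ, ∀ (β : Fin s → ℂ) (H : ℝ) (h w b₀ : ℕ), 1 ≤ H → (2 * H * ((h : ℝ) + w + 2)) ^ E ≤ (b₀ : ℝ) →
    (∀ (L : ℕ) (x : Fin L → Fibres m n N r₀ ℓ), (∀ l, (x l).Valid q M e β H h w b₀) →
      (∀ l l', l ≠ l' → Separated H h (x l) (x l')) →
      ∃ ρ : Fin L → ℕ, ∑ l, ρ l ≤ s + 1 ∧ ∀ l, (x l).ClassesUpTo e D (ρ l + ℓ) ∧ (x l).NoDivisorClasses e (ρ l + ℓ)) ∧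
    ∀ r : ℕ, ℓ ≤ r → ∃ F : Finset ℕ, F.card ≤ M * ((s + 1) / (r + 1 - ℓ)) ∧
      ∀ x : Fibres m n N r₀ ℓ, x.Valid q M e β H h w b₀ → (∀ j, ∀ c ∈ F, Far m H h (x.b j) c) →
      x.ClassesUpTo e D r ∧ x.NoDivisorClasses e r) ∧
    ∃ k : ℕ, 0 < k ∧ ∀ (β : Fin s → ℂ) (H : ℝ) (h : ℕ), 1 ≤ H → ∃ C : ℝ, ∀ B : ℕ, 0 < B →
      ((exceptional m n N r₀ ℓ q e D β H h B).ncard : ℝ) ^ k ≤ C * (B : ℝ) ^ (k - 1) := by
  classical
  obtain ⟨E, hE⟩ := parts m n N r₀ 1 q s ℓ e D hD
  refine ⟨parts m n N r₀ M q s ℓ e D hD, 2 * (E + 1), by omega, fun β H h hH => ?_⟩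
  exact Pool.Agent.H885.count_windows (fun B => exceptional m n N r₀ ℓ q e D β H h B) hH h m (s + 1) E
    (fun B b hb => hb.1) fun w b₀ hbig => by
      obtain ⟨-, h0⟩ := hE β H h w b₀ hH hbig
      obtain ⟨F, h1, h2⟩ := h0 ℓ le_rfl
      have h3 : ℓ + 1 - ℓ = 1 := by omega
      rw [h3, Nat.div_one, one_mul] at h1
      refine ⟨F, h1, fun B b hb hb1 hb2 => ?_⟩
      obtain ⟨x, hx1, hx2, hx3⟩ := hb.2
      by_contra hcon
      push Not at hcon
      refine hx3 (h2 x ⟨fun j => ?_, hx1.far, hx1.different, hx1.numerators, hx1.family, hx1.pole, hx1.factor, hx1.central₀,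
        hx1.central, hx1.invertible, hx1.symmetries, hx1.stable⟩ fun j c hc => ?_)
      · rw [hx2 j]
        exact ⟨hb1, hb2⟩
      · rw [hx2 j]
        exact hcon c hc

end Pool.Agent.Results.MP_c3fc99_ag.DeRhamBettiClasses
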